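import Pool.Agent.Helper56.NB.Defs

/-!
Block NB-SK1: countable good subrings of a commutative Noetherian ring.
-/

namespace Pool.Agent.Helper56.NB

open MvPolynomial

universe u v

namespace SK

section

variable {C : Type u} [CommRing C]

open Classical in
/-- A chosen solution of a system modulo an ideal, if there is one. -/
noncomputable def zr (n : ℕ) (T G : Finset (MvPolynomial (Fin n) C)) (B : Finset C) : Fin n → C :=
  if h : ∃ z : Fin n → C, (∀ t ∈ T, eval z t ∈ Ideal.span (B : Set C)) ∧
    (∀ g ∈ G, eval z g ∉ Ideal.span (B : Set C)) then h.choose else 0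

theorem zr_spec (n : ℕ) (T G : Finset (MvPolynomial (Fin n) C)) (B : Finset C)
    (h : ∃ z : Fin n → C, (∀ t ∈ T, eval z t ∈ Ideal.span (B : Set C)) ∧
      (∀ g ∈ G, eval z g ∉ Ideal.span (B : Set C))) :
    (∀ t ∈ T, eval (zr n T G B) t ∈ Ideal.span (B : Set C)) ∧
      (∀ g ∈ G, eval (zr n T G B) g ∉ Ideal.span (B : Set C)) := by
  unfold zr
  rw [dif_pos h]
  exact h.choose_spec

/-- The solutions of a linear equation. -/
def lin {n : ℕ} (a : Fin n → C) : Submodule C (Fin n → C) :=
  LinearMap.ker (∑ j, a j • (LinearMap.proj j : (Fin n → C) →ₗ[C] C))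

theorem mem_lin {n : ℕ} (a x : Fin n → C) : x ∈ lin a ↔ ∑ j, a j * x j = 0 := by
  simp [lin, LinearMap.sum_apply]

variable [IsNoetherianRing C]

/-- Generators of the solutions of a linear equation. -/
noncomputable def gens {n : ℕ} (a : Fin n → C) : Finset (Fin n → C) :=
  (IsNoetherian.noetherian (lin a)).choose

theorem span_gens {n : ℕ} (a : Fin n → C) :
    Submodule.span C (gens a : Set (Fin n → C)) = lin a :=
  (IsNoetherian.noetherian (lin a)).choose_spec

open Classical in
/-- The elements added in one step. -/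
noncomputable def new (R : Subring C) : Set C :=
  Set.range (fun q : (Σ n : ℕ, Finset (MvPolynomial (Fin n) R) × Finset (MvPolynomial (Fin n) R) ×
      Finset R × Fin n) =>
    zr q.1 (q.2.1.image (MvPolynomial.map R.subtype)) (q.2.2.1.image (MvPolynomial.map R.subtype))
      (q.2.2.2.1.image R.subtype) q.2.2.2.2) ∪
  ⋃ (n : ℕ) (a : Fin n → R), ⋃ y ∈ gens (fun j => (a j : C)), Set.range y

/-- One step of the closure. -/
noncomputable def step (R : Subring C) : Subring C := Subring.closure ((R : Set C) ∪ new R)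

theorem le_step (R : Subring C) : R ≤ step R := fun _ hx => Subring.subset_closure (Or.inl hx)

omit [IsNoetherianRing C] in
theorem countable_closure {s : Set C} (hs : s.Countable) : Countable (Subring.closure s) := by
  have h1 := Algebra.lift_cardinalMk_adjoin_le ℤ s
  have h2 : Cardinal.mk (Algebra.adjoin ℤ s) ≤ Cardinal.aleph0 := by
    rw [← Cardinal.lift_le_aleph0]
    refine h1.trans ?_
    have := Cardinal.mk_le_aleph0_iff.mpr hs
    simp [this]
  rw [Algebra.adjoin_int] at h2
  exact Cardinal.mk_le_aleph0_iff.mp h2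

omit [IsNoetherianRing C] in
theorem countable_mvPolynomial {F : Type u} [CommRing F] [Countable F] (n : ℕ) :
    Countable (MvPolynomial (Fin n) F) := by
  rw [← Cardinal.mk_le_aleph0_iff]
  have h1 := MvPolynomial.cardinalMk_le_max_lift (σ := Fin n) (R := F)
  refine h1.trans (max_le (max_le ?_ ?_) le_rfl)
  · simp
  · simp

theorem countable_step (R : Subring C) (hR : Countable R) : Countable (step R) := by
  apply countable_closure
  apply Set.Countable.union
  · exact hR
  · unfold new
    have : ∀ n, Countable (MvPolynomial (Fin n) R) := fun n => countable_mvPolynomial n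
    apply Set.Countable.union
    · exact Set.countable_range _
    · refine Set.countable_iUnion fun n => Set.countable_iUnion fun a => ?_
      exact Set.Countable.biUnion (Finset.countable_toSet _) fun y _ => Set.countable_range _

/-- The chain of subrings. -/
noncomputable def chain (A : Set C) : ℕ → Subring C
  | 0 => Subring.closure A
  | n + 1 => step (chain A n)

theorem chain_mono (A : Set C) : Monotone (chain A) :=
  monotone_nat_of_le_succ (fun _ => le_step _)

theorem chain_countable (A : Set C) (hA : A.Countable) (n : ℕ) : Countable (chain A n) := by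
  induction n with
  | zero => exact countable_closure hA
  | succ n ih => exact countable_step _ ih

theorem mem_sup (A : Set C) (x : C) : x ∈ (⨆ n, chain A n) ↔ ∃ n, x ∈ chain A n :=
  Subring.mem_iSup_of_directed (chain_mono A).directed_le

/-- Lifting polynomials to a member of the chain. -/
theorem lift (A : Set C) (n : ℕ) (p : MvPolynomial (Fin n) (⨆ n, chain A n : Subring C)) :
    ∃ m, ∀ m' ≥ m, ∃ q : MvPolynomial (Fin n) (chain A m'),
      MvPolynomial.map (chain A m').subtype q =
        MvPolynomial.map (⨆ n, chain A n : Subring C).subtype p := by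
  induction p using MvPolynomial.induction_on with
  | C a =>
    obtain ⟨m, hm⟩ := (mem_sup A a.1).mp a.2
    refine ⟨m, fun m' hm' => ⟨MvPolynomial.C ⟨a.1, chain_mono A hm' hm⟩, ?_⟩⟩
    rw [map_C, map_C]
    rfl
  | add p q hp hq =>
    obtain ⟨m₁, h₁⟩ := hp
    obtain ⟨m₂, h₂⟩ := hq
    refine ⟨max m₁ m₂, fun m' hm' => ?_⟩
    obtain ⟨p', hp'⟩ := h₁ m' (le_trans (le_max_left _ _) hm')
    obtain ⟨q', hq'⟩ := h₂ m' (le_trans (le_max_right _ _) hm')
    exact ⟨p' + q', by rw [map_add, map_add, hp', hq']⟩
  | mul_X p i hp =>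
    obtain ⟨m, h⟩ := hp
    refine ⟨m, fun m' hm' => ?_⟩
    obtain ⟨p', hp'⟩ := h m' hm'
    exact ⟨p' * X i, by rw [map_mul, map_mul, hp', map_X, map_X]⟩

theorem lift_finset (A : Set C) (n : ℕ)
    (T : Finset (MvPolynomial (Fin n) (⨆ n, chain A n : Subring C))) :
    ∃ m, ∀ m' ≥ m, ∀ p ∈ T, ∃ q : MvPolynomial (Fin n) (chain A m'),
      MvPolynomial.map (chain A m').subtype q =
        MvPolynomial.map (⨆ n, chain A n : Subring C).subtype p := by
  choose M hM using lift A n
  exact ⟨T.sup M, fun m' hm' p hp => hM p m' (le_trans (Finset.le_sup hp) hm')⟩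

theorem lift_elt (A : Set C) (T : Finset (⨆ n, chain A n : Subring C)) :
    ∃ m, ∀ m' ≥ m, ∀ p ∈ T, (p : C) ∈ chain A m' := by
  have h : ∀ p : (⨆ n, chain A n : Subring C), ∃ m, (p : C) ∈ chain A m :=
    fun p => (mem_sup A p.1).mp p.2
  choose M hM using h
  exact ⟨T.sup M, fun m' hm' p hp => chain_mono A (le_trans (Finset.le_sup hp) hm') (hM p)⟩

omit [IsNoetherianRing C] in
theorem map_span (R : Subring C) (B : Finset R) :
    (Ideal.span (B : Set R)).map (algebraMap R C) = Ideal.span (R.subtype '' (B : Set R)) := by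
  rw [Ideal.map_span]
  rfl

theorem key (A : Set C) (n : ℕ)
    (T G : Finset (MvPolynomial (Fin n) (⨆ n, chain A n : Subring C)))
    (B : Finset (⨆ n, chain A n : Subring C)) (x : Fin n → C)
    (hx : ∀ t ∈ T, MvPolynomial.aeval x t ∈ (Ideal.span (B : Set _)).map
      (algebraMap (⨆ n, chain A n : Subring C) C))
    (hg : ∀ g ∈ G, MvPolynomial.aeval x g ∉ (Ideal.span (B : Set _)).map
      (algebraMap (⨆ n, chain A n : Subring C) C)) :
    ∃ z : Fin n → (⨆ n, chain A n : Subring C),
      (∀ t ∈ T, algebraMap _ C (MvPolynomial.aeval z t) ∈ (Ideal.span (B : Set _)).map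
        (algebraMap (⨆ n, chain A n : Subring C) C)) ∧
      ∀ g ∈ G, algebraMap _ C (MvPolynomial.aeval z g) ∉ (Ideal.span (B : Set _)).map
        (algebraMap (⨆ n, chain A n : Subring C) C) := by
  classical
  obtain ⟨m₁, hm₁⟩ := lift_finset A n T
  obtain ⟨m₂, hm₂⟩ := lift_finset A n G
  obtain ⟨m₃, hm₃⟩ := lift_elt A B
  set m := max m₁ (max m₂ m₃) with hm
  have h1 := hm₁ m (le_max_left _ _)
  have h2 := hm₂ m (le_trans (le_max_left _ _) (le_max_right _ _))
  have h3 := hm₃ m (le_trans (le_max_right _ _) (le_max_right _ _))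
  choose! L hL using h1
  choose! L' hL' using h2
  -- the finite set of generators at stage `m`
  set B' : Finset (chain A m) := B.attach.image (fun b => ⟨(b.1 : C), h3 b.1 b.2⟩) with hB'
  have hBB : (chain A m).subtype '' (B' : Set (chain A m)) =
      (⨆ n, chain A n : Subring C).subtype '' (B : Set _) := by
    ext c
    constructor
    · rintro ⟨b, hb, rfl⟩
      rw [hB', Finset.mem_coe, Finset.mem_image] at hb
      obtain ⟨b', hb', rfl⟩ := hb
      exact ⟨b'.1, b'.2, rfl⟩
    · rintro ⟨b, hb, rfl⟩
      refine ⟨⟨(b : C), h3 b hb⟩, ?_, rfl⟩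
      rw [hB', Finset.mem_coe, Finset.mem_image]
      exact ⟨⟨b, hb⟩, Finset.mem_attach _ _, rfl⟩
  have hI : (Ideal.span (B : Set _)).map (algebraMap (⨆ n, chain A n : Subring C) C) =
      Ideal.span ((B'.image (chain A m).subtype : Finset C) : Set C) := by
    rw [map_span, ← hBB]
    congr 1
    simp
  rw [hI] at hx hg ⊢
  have hev : ∀ (y : Fin n → C) (p : MvPolynomial (Fin n) (⨆ n, chain A n : Subring C)),
      eval y (MvPolynomial.map (⨆ n, chain A n : Subring C).subtype p) = aeval y p := by
    intro y p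
    rw [eval_map, aeval_def]
    rfl
  have hzero := zr_spec n ((T.image L).image (MvPolynomial.map (chain A m).subtype))
    ((G.image L').image (MvPolynomial.map (chain A m).subtype))
    (B'.image (chain A m).subtype) ⟨x, by
      intro t ht
      obtain ⟨q, hq, rfl⟩ := Finset.mem_image.mp ht
      obtain ⟨p, hp, rfl⟩ := Finset.mem_image.mp hq
      rw [hL p hp, hev]
      exact hx p hp, by
      intro t ht
      obtain ⟨q, hq, rfl⟩ := Finset.mem_image.mp ht
      obtain ⟨p, hp, rfl⟩ := Finset.mem_image.mp hq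
      rw [hL' p hp, hev]
      exact hg p hp⟩
  set z := zr n ((T.image L).image (MvPolynomial.map (chain A m).subtype))
    ((G.image L').image (MvPolynomial.map (chain A m).subtype))
    (B'.image (chain A m).subtype) with hz
  have hzm : ∀ i, z i ∈ (⨆ n, chain A n : Subring C) := by
    intro i
    rw [mem_sup]
    refine ⟨m + 1, ?_⟩
    change _ ∈ step (chain A m)
    apply Subring.subset_closure
    right
    left
    exact ⟨⟨n, T.image L, G.image L', B', i⟩, rfl⟩
  have hzz : ∀ p : MvPolynomial (Fin n) (⨆ n, chain A n : Subring C), aeval z p =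
      (⨆ n, chain A n : Subring C).subtype
        (aeval (fun i => (⟨z i, hzm i⟩ : (⨆ n, chain A n : Subring C))) p) := by
    intro p
    rw [aeval_def, aeval_def, hom_eval₂]
    rfl
  refine ⟨fun i => ⟨z i, hzm i⟩, ?_, ?_⟩
  · intro t ht
    have h1 := hzero.1 (MvPolynomial.map (chain A m).subtype (L t))
      (Finset.mem_image_of_mem _ (Finset.mem_image_of_mem _ ht))
    rw [hL t ht, hev, hzz] at h1
    exact h1
  · intro t ht
    have h1 := hzero.2 (MvPolynomial.map (chain A m).subtype (L' t))
      (Finset.mem_image_of_mem _ (Finset.mem_image_of_mem _ ht))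
    rw [hL' t ht, hev, hzz] at h1
    exact h1

theorem key_ker (A : Set C) (n : ℕ) (a : Fin n → (⨆ n, chain A n : Subring C)) (x : Fin n → C)
    (hx : ∑ j, (a j : C) * x j = 0) :
    ∃ (l : ℕ) (y : Fin l → Fin n → (⨆ n, chain A n : Subring C)) (c : Fin l → C),
      (∀ k, ∑ j, a j * y k j = 0) ∧ ∀ j, x j = ∑ k, c k * (y k j : C) := by
  classical
  obtain ⟨m, hm⟩ := lift_elt A (Finset.univ.image a)
  have hm' := hm m le_rfl
  have ha : ∀ j, (a j : C) ∈ chain A m := fun j =>
    hm' (a j) (Finset.mem_image_of_mem _ (Finset.mem_univ j))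
  set a' : Fin n → chain A m := fun j => ⟨(a j : C), ha j⟩ with ha'
  have hxl : x ∈ lin (fun j => (a' j : C)) := (mem_lin _ _).2 hx
  rw [← span_gens] at hxl
  obtain ⟨f, hf⟩ := Submodule.mem_span_finset.1 hxl
  -- an enumeration of the generators
  set S := gens (fun j => (a' j : C)) with hS
  have hmem : ∀ y ∈ S, ∀ j, y j ∈ (⨆ n, chain A n : Subring C) := by
    intro y hy j
    rw [mem_sup]
    refine ⟨m + 1, ?_⟩
    change _ ∈ step (chain A m)
    apply Subring.subset_closure
    right
    right
    simp only [Set.mem_iUnion]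
    exact ⟨n, a', y, hy, j, rfl⟩
  refine ⟨S.card, fun k j => ⟨(S.equivFin.symm k).1 j, hmem _ (S.equivFin.symm k).2 j⟩,
    fun k => f (S.equivFin.symm k).1, ?_, ?_⟩
  · intro k
    have h1 : (S.equivFin.symm k).1 ∈ lin (fun j => (a' j : C)) := by
      rw [← span_gens]
      exact Submodule.subset_span (S.equivFin.symm k).2
    rw [mem_lin] at h1
    apply Subtype.ext
    simpa [ha'] using h1
  · intro j
    have h2 : ∑ y ∈ S, f y • y = x := hf.2
    rw [← h2, Finset.sum_apply, ← Finset.sum_coe_sort]
    rw [← Equiv.sum_comp S.equivFin.symm]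
    rfl

end

end SK

theorem exists_goodSub {C : Type u} [CommRing C] [IsNoetherianRing C] (A : Set C)
    (hA : A.Countable) : ∃ C₀ : Subring C, A ⊆ C₀ ∧ Countable C₀ ∧ GoodSub C₀ := by
  refine ⟨⨆ n, SK.chain A n, ?_, ?_, ?_⟩
  · intro x hx
    exact (SK.mem_sup A x).mpr ⟨0, Subring.subset_closure hx⟩
  · have h1 : (((⨆ n, SK.chain A n : Subring C) : Set C)).Countable := by
      rw [Subring.coe_iSup_of_directed (SK.chain_mono A).directed_le]
      exact Set.countable_iUnion (fun n => (SK.chain_countable A hA n))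
    exact h1
  · exact ⟨SK.key A, SK.key_ker A⟩

end Pool.Agent.Helper56.NB
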